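import Pool.Agent.Helper74.CO.Goals2

/-!
# Project CO, packets TRF, WINV, GINV
-/

set_option autoImplicit false

namespace Pool.Agent.Helper53.CO

open Finset Pool.Agent.Helper74.CO

theorem t_TRF : Pool.Agent.Helper74.CO.TRF := by
  intro ι X M a b K κ hM
  constructor
  · intro h j k hj hk hjk
    have h1 := h j k hj hk hjk
    have h2 : ∑ x ∈ X, ex (j * a (M x) + k * b (M x)) = ∑ x ∈ X, ex (j * a x + k * b x) := by
      refine Finset.sum_nbij' M M (fun x hx => (hM x hx).1) (fun x hx => (hM x hx).1)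
        (fun x hx => (hM x hx).2) (fun x hx => (hM x hx).2) (fun x _ => rfl)
    show ‖∑ x ∈ X, ex (j * a (M x) + k * b (M x))‖ ≤ κ * #X
    rw [h2]
    exact h1
  · intro h j k hj hk hjk
    have h1 := h j k hj hk hjk
    have h2 : ∑ x ∈ X, ex (j * a (M x) + k * b x) = ∑ x ∈ X, ex (j * a x + k * b (M x)) := by
      refine Finset.sum_nbij' M M (fun x hx => (hM x hx).1) (fun x hx => (hM x hx).1)
        (fun x hx => (hM x hx).2) (fun x hx => (hM x hx).2) (fun x hx => ?_)
      rw [(hM x hx).2]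
    show ‖∑ x ∈ X, ex (j * a (M x) + k * b x)‖ ≤ κ * #X
    rw [h2]
    exact h1

theorem t_WINV : Pool.Agent.Helper74.CO.WINV := by
  intro F _ _ _ e v he hv x hx
  rw [Xw, mem_filter] at hx
  obtain ⟨-, hx0, hxv, hxe⟩ := hx
  have h1 : x - e ≠ 0 := sub_ne_zero.2 hxe
  have h2 : x - v ≠ 0 := sub_ne_zero.2 hxv
  have h3 : e - v ≠ 0 := sub_ne_zero.2 hv.symm
  have y0 : Mw e v x ≠ 0 := div_ne_zero (mul_ne_zero he h2) h1
  have yv : Mw e v x - v = x * (e - v) / (x - e) := by
    unfold Mw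
    field_simp
    ring
  have ye : Mw e v x - e = e * (e - v) / (x - e) := by
    unfold Mw
    field_simp
    ring
  constructor
  · rw [Xw, mem_filter]
    refine ⟨mem_univ _, y0, ?_, ?_⟩
    · intro h
      have h4 : x * (e - v) / (x - e) ≠ 0 := div_ne_zero (mul_ne_zero hx0 h3) h1
      exact h4 (by rw [← yv, h, sub_self])
    · intro h
      have h4 : e * (e - v) / (x - e) ≠ 0 := div_ne_zero (mul_ne_zero he h3) h1
      exact h4 (by rw [← ye, h, sub_self])
  · rw [show Mw e v (Mw e v x) = e * (Mw e v x - v) / (Mw e v x - e) from rfl, yv, ye]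
    field_simp

theorem t_GINV : Pool.Agent.Helper74.CO.GINV := by
  intro F _ _ _ e f he hf hef x hx
  rw [Xg, mem_filter] at hx
  obtain ⟨-, hx0, hx1, hxf, hxe, hxD⟩ := hx
  have hD : (e + f) * x - e ≠ 0 := sub_ne_zero.2 hxD
  have h2 : x - (1 - f) ≠ 0 := sub_ne_zero.2 hxf
  have h3 : e + f - 1 ≠ 0 := sub_ne_zero.2 hef
  have h4 : x - 1 ≠ 0 := sub_ne_zero.2 hx1
  have h5 : x - e ≠ 0 := sub_ne_zero.2 hxe
  have y0 : Mg e f x ≠ 0 := div_ne_zero (mul_ne_zero he h2) hD
  have y1 : 1 - Mg e f x = f * (x - e) / ((e + f) * x - e) := by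
    unfold Mg
    rw [eq_div_iff hD, sub_mul, div_mul_cancel₀ _ hD]
    ring
  have yf : Mg e f x - (1 - f) = x * f * (e + f - 1) / ((e + f) * x - e) := by
    unfold Mg
    rw [eq_div_iff hD, sub_mul, div_mul_cancel₀ _ hD]
    ring
  have ye : Mg e f x - e = -(e * (e + f - 1) * (x - 1)) / ((e + f) * x - e) := by
    unfold Mg
    rw [eq_div_iff hD, sub_mul, div_mul_cancel₀ _ hD]
    ring
  have yD : (e + f) * Mg e f x - e = e * f * (e + f - 1) / ((e + f) * x - e) := by
    unfold Mg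
    rw [eq_div_iff hD, sub_mul, mul_assoc, div_mul_cancel₀ _ hD]
    ring
  have n1 : f * (x - e) / ((e + f) * x - e) ≠ 0 := div_ne_zero (mul_ne_zero hf h5) hD
  have nf : x * f * (e + f - 1) / ((e + f) * x - e) ≠ 0 :=
    div_ne_zero (mul_ne_zero (mul_ne_zero hx0 hf) h3) hD
  have ne' : -(e * (e + f - 1) * (x - 1)) / ((e + f) * x - e) ≠ 0 :=
    div_ne_zero (neg_ne_zero.2 (mul_ne_zero (mul_ne_zero he h3) h4)) hD
  have nD : e * f * (e + f - 1) / ((e + f) * x - e) ≠ 0 :=
    div_ne_zero (mul_ne_zero (mul_ne_zero he hf) h3) hD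
  constructor
  · rw [Xg, mem_filter]
    refine ⟨mem_univ _, y0, ?_, ?_, ?_, ?_⟩
    · intro h
      exact n1 (by rw [← y1, h, sub_self])
    · intro h
      exact nf (by rw [← yf, h, sub_self])
    · intro h
      exact ne' (by rw [← ye, h, sub_self])
    · intro h
      exact nD (by rw [← yD, h, sub_self])
  · rw [show Mg e f (Mg e f x) = e * (Mg e f x - (1 - f)) / ((e + f) * Mg e f x - e) from rfl,
      yf, yD, mul_div_assoc', div_div_div_cancel_right₀ hD]
    rw [div_eq_iff (mul_ne_zero (mul_ne_zero he hf) h3)]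
    ring

end Pool.Agent.Helper53.CO
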